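import Pool.Agent.H32.RK.TargetsB

/-!
# MP_63b6b1_nt, board `hpk_modules`, row BDI: the vectors which are not isolated are rare
-/

set_option autoImplicit false

open Finset NumberField Pool.Agent.H32.RK
open Pool.Agent.H32.RQ hiding Iso Sup Gd

namespace Pool.Agent.H45.RK

theorem pm_const (K : Type) [Field K] [NumberField K] (D : ℝ) :
    pm (K := K) (fun _ => D) = D ^ dg K := by
  unfold pm
  rw [Finset.prod_pow_eq_pow_sum, InfinitePlace.sum_mult_eq]

theorem pf_BDI (K : Type) [Field K] [NumberField K] (hPCN : T_PCN K) : T_BDI K := by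
  classical
  intro s
  obtain ⟨C, hC, h⟩ := hPCN s
  refine ⟨C, hC, fun B D hB hD => ?_⟩
  set F : Finset (Fin s → 𝓞 K) := (vk K s B).filter fun x => Bg B x ∧ ¬ Iso D x with hF
  have hch : ∀ x ∈ F, ∃ z : Fin s → 𝓞 K,
      (∀ i j (w : InfinitePlace K), w ((mnr x z i j : 𝓞 K) : K) ≤ D) ∧
      ∃ i j, mnr x z i j ≠ 0 := by
    intro x hx
    have h1 := (Finset.mem_filter.1 hx).2.2
    unfold H32.RK.Iso at h1
    push Not at h1
    obtain ⟨z, hz, i, j, hij⟩ := h1
    exact ⟨z, hz, i, j, hij⟩
  choose! z hz using hch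
  have hinj : Function.Injective fun x : Fin s → 𝓞 K => (x, z x) :=
    fun x y hxy => congrArg Prod.fst hxy
  have hcard : (F.image fun x => (x, z x)).card = F.card :=
    Finset.card_image_of_injective _ hinj
  have h1 := h B ⊤ (fun _ => D) (F.image fun x => (x, z x)) hB top_ne_bot (fun _ => hD) ?_ ?_
  · rw [hcard, pm_const, Ideal.absNorm_top, Nat.cast_one, div_one] at h1
    exact h1
  · intro q hq
    obtain ⟨x, hx, rfl⟩ := Finset.mem_image.1 hq
    have hx2 := Finset.mem_filter.1 hx
    have hx3 : Bd B x := by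
      have := hx2.1
      unfold vk at this
      rw [Set.Finite.mem_toFinset] at this
      exact this
    exact ⟨hx3, hx2.2.1, fun i => Submodule.mem_top, (hz x hx).1, (hz x hx).2⟩
  · intro q hq q' hq' hqq _
    obtain ⟨x, hx, rfl⟩ := Finset.mem_image.1 hq
    obtain ⟨y, hy, rfl⟩ := Finset.mem_image.1 hq'
    simp only at hqq
    subst hqq
    rfl

end Pool.Agent.H45.RK
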