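import Pool.Agent.H32.RK.TargetsA
import Pool.Agent.H32.RK.TargetsE

/-!
# MP_63b6b1_nt, board `hpk_modules`, row LPC: the box is equidistributed at every infinite place
-/

set_option autoImplicit false

open Finset NumberField Pool.Agent.H32.RK

namespace Pool.Agent.H45.RK

theorem el_inj {K : Type} [Field K] [NumberField K] {ι : Type} [Fintype ι]
    (ω : Module.Basis ι ℤ (𝓞 K)) : Function.Injective (el ω) := by
  intro v v' h
  have h1 : ∀ v : ι → ℤ, el ω v = ω.equivFun.symm v := by
    intro v
    unfold el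
    rw [Module.Basis.equivFun_symm_apply]
  rw [h1, h1] at h
  exact ω.equivFun.symm.injective h

open Classical in
theorem pm_ite {K : Type} [Field K] [NumberField K] (w : InfinitePlace K) (a Y : ℝ) :
    pm (fun w' : InfinitePlace K => if w' = w then a else Y) * Y ^ w.mult =
      a ^ w.mult * Y ^ dg K := by
  classical
  have h1 : (Y : ℝ) ^ dg K = ∏ w' : InfinitePlace K, Y ^ w'.mult := by
    rw [Finset.prod_pow_eq_pow_sum, InfinitePlace.sum_mult_eq]
  unfold pm
  rw [h1, ← Finset.mul_prod_erase _ _ (Finset.mem_univ w),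
    ← Finset.mul_prod_erase (Finset.univ : Finset (InfinitePlace K)) (fun w' => Y ^ w'.mult)
      (Finset.mem_univ w)]
  have h2 : ∏ w' ∈ (Finset.univ : Finset (InfinitePlace K)).erase w,
      (if w' = w then a else Y) ^ w'.mult =
      ∏ w' ∈ (Finset.univ : Finset (InfinitePlace K)).erase w, Y ^ w'.mult := by
    refine Finset.prod_congr rfl fun w' hw' => ?_
    rw [if_neg (Finset.ne_of_mem_erase hw')]
  rw [h2]
  simp only [if_true]
  ring

theorem card_bo (ι : Type) [Fintype ι] [DecidableEq ι] (A : ℕ) :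
    (A : ℝ) ^ Fintype.card ι ≤ ((bo ι A).card : ℝ) := by
  unfold bo
  rw [Fintype.card_piFinset]
  have h1 : ∀ i : ι, A ≤ (Finset.Icc (-(A : ℤ)) A).card := by
    intro _
    rw [Int.card_Icc]
    omega
  have h2 : A ^ Fintype.card ι ≤ ∏ _i : ι, (Finset.Icc (-(A : ℤ)) A).card := by
    rw [← Finset.card_univ, ← Finset.prod_const]
    exact Finset.prod_le_prod' fun i _ => h1 i
  exact_mod_cast h2

theorem pf_LPC (K : Type) [Field K] [NumberField K] (hCMP : T_CMP K) (hLAT : T_LAT K)
    (hNRM : T_NRM K) : T_LPC K := by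
  classical
  intro ι _ _ ω
  obtain ⟨hι, C₁, hC₁, -, hcmp⟩ := hCMP ι ω
  obtain ⟨C₂, hC₂, hlat⟩ := hLAT
  obtain ⟨hn1, -, -, hn4, -, hn6, -⟩ := hNRM
  have hP : (1 : ℝ) ≤ (2 * C₁) ^ dg K := one_le_pow₀ (by linarith)
  have hCC : (1 : ℝ) ≤ 8 * C₂ * (2 * C₁) ^ dg K := by
    have : (1 : ℝ) * 1 ≤ 8 * C₂ * (2 * C₁) ^ dg K := by
      refine mul_le_mul (by linarith) hP (by norm_num) (by linarith)
    linarith
  refine ⟨C₁ + 8 * C₂ * (2 * C₁) ^ dg K, by linarith, fun A w hA => ?_⟩
  have hA1 : (1 : ℝ) ≤ A := by exact_mod_cast hA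
  have hbd : ∀ v ∈ bo ι A, ∀ w' : InfinitePlace K, w' (el ω v : K) ≤ C₁ * A := by
    intro v hv w'
    refine hcmp v A (fun l => ?_) w'
    unfold bo at hv
    have h1 := Fintype.mem_piFinset.1 hv l
    rw [Finset.mem_Icc] at h1
    have h2 : |v l| ≤ (A : ℤ) := abs_le.2 h1
    exact_mod_cast h2
  refine ⟨fun v hv => ?_, fun θ η hη => ?_⟩
  · rw [InfinitePlace.norm_embedding_eq]
    have h1 := hbd v hv w
    have h2 : (C₁ : ℝ) * A ≤ (C₁ + 8 * C₂ * (2 * C₁) ^ dg K) * A :=
      mul_le_mul_of_nonneg_right (by linarith) (by linarith)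
    exact h1.trans h2
  · set F := (bo ι A).filter fun v => ‖w.embedding (el ω v : K) - θ‖ ≤ η with hF
    have hcX : (0 : ℝ) ≤ ((bo ι A).card : ℝ) := Nat.cast_nonneg _
    rcases lt_or_ge (A : ℝ) η with h | h
    · have h1 : (F.card : ℝ) ≤ ((bo ι A).card : ℝ) := by
        exact_mod_cast Finset.card_le_card (Finset.filter_subset _ _)
      have h2 : (A : ℝ) ^ w.mult ≤ η ^ w.mult := pow_le_pow_left₀ (by linarith) h.le _
      calc (F.card : ℝ) * (A : ℝ) ^ w.mult ≤ ((bo ι A).card : ℝ) * η ^ w.mult :=
            mul_le_mul h1 h2 (by positivity) hcX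
        _ = 1 * (η ^ w.mult * ((bo ι A).card : ℝ)) := by ring
        _ ≤ (C₁ + 8 * C₂ * (2 * C₁) ^ dg K) * (η ^ w.mult * ((bo ι A).card : ℝ)) :=
            mul_le_mul_of_nonneg_right (by linarith) (by positivity)
        _ = _ := by ring
    · set Y : ℝ := 2 * C₁ * A with hY
      have hY1 : 1 ≤ Y := by
        rw [hY]
        nlinarith
      set D : InfinitePlace K → ℝ := fun w' => if w' = w then 2 * η else Y with hD
      have hDpos : ∀ w', 1 ≤ D w' := by
        intro w'
        simp only [hD]
        split_ifs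
        · linarith
        · exact hY1
      have hinj : Function.Injective fun v : ι → ℤ => ((el ω v : 𝓞 K) : K) := by
        intro v v' hv
        exact el_inj ω (RingOfIntegers.ext hv)
      have hcard : (F.image fun v => ((el ω v : 𝓞 K) : K)).card = F.card :=
        Finset.card_image_of_injective _ hinj
      have h1 := hlat (F.image fun v => ((el ω v : 𝓞 K) : K)) D 1 one_pos
        (fun w' => by linarith [hDpos w']) ?_
      · rw [hcard, div_one] at h1
        have hpm1 : 1 ≤ pm D := by
          have h01 := hn6 (fun _ => 1) D (fun _ => zero_le_one) hDpos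
          rw [hn4, one_pow] at h01
          exact h01
        have h2 : (F.card : ℝ) ≤ 2 * C₂ * pm D := by nlinarith
        have h3 : pm D * Y ^ w.mult = (2 * η) ^ w.mult * Y ^ dg K := pm_ite w (2 * η) Y
        have h4 : Y ^ w.mult = (2 * C₁) ^ w.mult * (A : ℝ) ^ w.mult := by
          rw [hY, mul_pow]
        have h5 : Y ^ dg K = (2 * C₁) ^ dg K * (A : ℝ) ^ dg K := by
          rw [hY, mul_pow]
        have h6 : (1 : ℝ) ≤ (2 * C₁) ^ w.mult := one_le_pow₀ (by linarith)
        have hpmA : 0 ≤ pm D * (A : ℝ) ^ w.mult := by positivity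
        have h7 : pm D * (A : ℝ) ^ w.mult ≤
            (2 * η) ^ w.mult * ((2 * C₁) ^ dg K * (A : ℝ) ^ dg K) := by
          rw [← h5, ← h3, h4]
          calc pm D * (A : ℝ) ^ w.mult = 1 * (pm D * (A : ℝ) ^ w.mult) := by ring
            _ ≤ (2 * C₁) ^ w.mult * (pm D * (A : ℝ) ^ w.mult) :=
                mul_le_mul_of_nonneg_right h6 hpmA
            _ = _ := by ring
        have h8 : (2 * η) ^ w.mult ≤ 4 * η ^ w.mult := by
          rw [mul_pow]
          refine mul_le_mul_of_nonneg_right ?_ (by positivity)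
          have hm : w.mult ≤ 2 := by
            unfold InfinitePlace.mult
            split_ifs <;> norm_num
          calc (2 : ℝ) ^ w.mult ≤ 2 ^ 2 := pow_le_pow_right₀ (by norm_num) hm
            _ = 4 := by norm_num
        have h9 : (A : ℝ) ^ dg K ≤ ((bo ι A).card : ℝ) := by
          rw [← hι]
          exact card_bo ι A
        have hη0 : 0 ≤ η ^ w.mult := by positivity
        have hAd : (0 : ℝ) ≤ (A : ℝ) ^ dg K := by positivity
        calc (F.card : ℝ) * (A : ℝ) ^ w.mult ≤ 2 * C₂ * pm D * (A : ℝ) ^ w.mult :=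
              mul_le_mul_of_nonneg_right h2 (by positivity)
          _ = 2 * C₂ * (pm D * (A : ℝ) ^ w.mult) := by ring
          _ ≤ 2 * C₂ * ((2 * η) ^ w.mult * ((2 * C₁) ^ dg K * (A : ℝ) ^ dg K)) :=
              mul_le_mul_of_nonneg_left h7 (by linarith)
          _ ≤ 2 * C₂ * ((4 * η ^ w.mult) * ((2 * C₁) ^ dg K * ((bo ι A).card : ℝ))) := by
              refine mul_le_mul_of_nonneg_left ?_ (by linarith)
              refine mul_le_mul h8 (mul_le_mul_of_nonneg_left h9 (by positivity))
                (by positivity) (by positivity)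
          _ = (8 * C₂ * (2 * C₁) ^ dg K) * (η ^ w.mult * ((bo ι A).card : ℝ)) := by ring
          _ ≤ (C₁ + 8 * C₂ * (2 * C₁) ^ dg K) * (η ^ w.mult * ((bo ι A).card : ℝ)) :=
              mul_le_mul_of_nonneg_right (by linarith) (by positivity)
          _ = _ := by ring
      · intro t ht t' ht' htt
        obtain ⟨v, hv, rfl⟩ := Finset.mem_image.1 ht
        obtain ⟨v', hv', rfl⟩ := Finset.mem_image.1 ht'
        have hv2 := Finset.mem_filter.1 hv
        have hv2' := Finset.mem_filter.1 hv'
        refine ⟨fun w' => ?_, ?_⟩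
        · simp only [hD]
          split_ifs with hw
          · subst hw
            rw [← InfinitePlace.norm_embedding_eq, map_sub]
            calc ‖w'.embedding (el ω v : K) - w'.embedding (el ω v' : K)‖ =
                ‖(w'.embedding (el ω v : K) - θ) - (w'.embedding (el ω v' : K) - θ)‖ := by
                  congr 1
                  ring
              _ ≤ ‖w'.embedding (el ω v : K) - θ‖ + ‖w'.embedding (el ω v' : K) - θ‖ :=
                  norm_sub_le _ _
              _ ≤ 2 * η := by linarith [hv2.2, hv2'.2]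
          · rw [← InfinitePlace.norm_embedding_eq, map_sub]
            refine (norm_sub_le _ _).trans ?_
            rw [InfinitePlace.norm_embedding_eq, InfinitePlace.norm_embedding_eq]
            have h1 := hbd v hv2.1 w'
            have h2 := hbd v' hv2'.1 w'
            rw [hY]
            linarith
        · have h1 := hn1 ⊤ (el ω v - el ω v') Submodule.mem_top (fun h0 => htt ?_)
          · rw [Ideal.absNorm_top, Nat.cast_one] at h1
            have he : ((el ω v - el ω v' : 𝓞 K) : K) = (el ω v : K) - (el ω v' : K) :=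
              map_sub (algebraMap (𝓞 K) K) _ _
            rw [he] at h1
            exact h1
          · have : el ω v = el ω v' := sub_eq_zero.1 h0
            simp only [this]

end Pool.Agent.H45.RK
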